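import Pool.Agent.Helper8_HK.All2
import Pool.Agent.Helper8_HK.FDefs

/-!
# MP_574a97_nt: the Hecke pairings for a prime level of degree 4 are perfect

Full positive answer to Q1, for every finite field `F` and every monic irreducible `n ∈ F[T]` of
degree 4: the pairings `φ_HC` over `ℤ` and over `ℤ/p` (every prime `p`, in particular the
characteristic) and the pairing `φ_DMF` are perfect.
-/

namespace Pool.Agent.Results.MP_574a97_nt.HeckePairings

open Polynomial Pool.Agent.HK

theorem result (F : Type) [Field F] [Fintype F] (n : F[X]) (hn : n.Monic)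
    (hi : Irreducible n) (h4 : n.natDegree = 4) :
    -- the pairing on cuspidal harmonic cochains, over `ℤ` and modulo every prime number
    PerfectHC n ∧
    -- the pairing on doubly cuspidal Drinfeld modular forms of weight 2 and type 1
    (∀ (C : Type) [NormedField C] [IsAlgClosed C] [CompleteSpace C] [IsUltrametricDist C]
      (ι : Kinf F →+* C), NormOK ι → PerfectDMF ι n) ∧
    -- the completion of an algebraic closure of `Kinf F` is such a field `C`
    (∃ (C : Type) (_ : NormedField C) (_ : IsAlgClosed C) (_ : CompleteSpace C)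
      (_ : IsUltrametricDist C) (ι : Kinf F →+* C),
      NormOK ι ∧ Dense {z : C | ∃ P : Polynomial (Kinf F), P ≠ 0 ∧ P.eval₂ ι z = 0}) := by
  obtain ⟨h1, h2, h3, h5⟩ := ppzT F n hn hi h4
  refine ⟨⟨fun m hm φ => ⟨⟨_, h1 m hm φ.1 φ.2⟩, rfl⟩, (freT F n hn hi).1, (freT F n hn hi).2,
    c1 n, fun φ ψ hψ => h2 φ ψ hψ, perf_of (pairZ n) h3 h5, fun p _ => ?_⟩, ?_, cexT F⟩
  · obtain ⟨B, hB, hB1, hB2⟩ := ppfT F n hn hi h4 p
    exact ⟨fun a b => B a b, fun θ φ => hB θ φ, perf_of B hB1 hB2⟩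
  intro C _ _ _ _ ι hι
  obtain ⟨k1, k2⟩ := dfnT F C ι hι n hn hi h4
  refine ⟨fun m hm f => ⟨⟨_, k1 m hm f.1 f.2⟩, rfl⟩, fun c hc => ?_⟩
  obtain ⟨b, hb, hb1, hb2⟩ := k2 c hc
  exact ⟨b, hb, perf_of (R := C) (A := OpAlg (TMs ι n)) (B := DM ι n) (pairM ι n b) hb1 hb2⟩

end Pool.Agent.Results.MP_574a97_nt.HeckePairings
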